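import Pool.Agent.H67S.Up

/-!
Consequences of the criterion: `R m ≤ 1 + φ - 2 / m` for all `m ≥ 2`, `R 4 ≤ 2`,
`R 5 ≤ 2.1021`.
-/

set_option autoImplicit false

namespace Pool.Agent.H67S

open Pool.Agent.H78.Sched Pool.Agent.H69.Sched

/-- The geometric sum. -/
theorem geom_eq {c : ℝ} (hc : 1 < c) (K : ℕ) :
    (c - 1) * ∑ k ∈ Finset.range K, (1 / c) ^ k = c - c * (1 / c) ^ K := by
  have hc0 : c ≠ 0 := by linarith
  induction K with
  | zero => simp
  | succ K ih =>
    rw [Finset.sum_range_succ, mul_add, ih, pow_succ]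
    field_simp
    ring

theorem cond_of {m : ℕ} (hm : 2 ≤ m) {c : ℝ} (hc : 1 < c)
    (h : ∀ K : ℕ, c ≤ (c - 1) ^ 2 + (c - 1) * (K / m) + c * (1 / c) ^ K) (K : ℕ) :
    ∑ k ∈ Finset.range K, (1 / c) ^ k ≤ c - 1 + K / m := by
  have h1 := geom_eq hc K
  have h2 := h K
  have hc0 : 0 < c - 1 := by linarith
  have h3 : (c - 1) * ∑ k ∈ Finset.range K, (1 / c) ^ k ≤ (c - 1) * (c - 1 + K / m) := by
    rw [h1]
    linarith
  exact le_of_mul_le_mul_left h3 hc0

/-- The condition holds for `1 + φ - 2 / m`. -/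
theorem cond_golden (m : ℕ) (hm : 2 ≤ m) : 1 < 1 + Real.goldenRatio - 2 / m ∧
    ∀ K : ℕ, ∑ k ∈ Finset.range K, (1 / (1 + Real.goldenRatio - 2 / m)) ^ k ≤
      1 + Real.goldenRatio - 2 / m - 1 + K / m := by
  have hm0 : (0 : ℝ) < m := by exact_mod_cast (by omega : 0 < m)
  have hm2 : (2 : ℝ) ≤ m := by exact_mod_cast hm
  set φ : ℝ := Real.goldenRatio with hφ
  have hφ2 : φ ^ 2 = φ + 1 := Real.goldenRatio_sq
  have hφ1 : 1.618 < φ := by
    have h5 : (2.236 : ℝ) < Real.sqrt 5 := by
      rw [show (2.236 : ℝ) = Real.sqrt (2.236 ^ 2) by rw [Real.sqrt_sq (by norm_num)]]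
      exact Real.sqrt_lt_sqrt (by norm_num) (by norm_num)
    rw [hφ, Real.goldenRatio]
    linarith
  have hφ3 : φ < 1.6181 := by
    have h5 : Real.sqrt 5 < 2.2361 := by
      rw [show (2.2361 : ℝ) = Real.sqrt (2.2361 ^ 2) by rw [Real.sqrt_sq (by norm_num)]]
      exact Real.sqrt_lt_sqrt (by norm_num) (by norm_num)
    rw [hφ, Real.goldenRatio]
    linarith
  set δ : ℝ := 2 / m with hδ
  have hδ0 : 0 < δ := by positivity
  have hδm : δ * m = 2 := by rw [hδ]; field_simp
  have hδ1 : δ ≤ 1 := by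
    rw [hδ, div_le_one hm0]
    exact hm2
  set c : ℝ := 1 + φ - δ with hcd
  have hc : 1 < c := by linarith
  have hc0 : 0 < c := by linarith
  set q : ℝ := 1 / c with hq
  have hq0 : 0 < q := by positivity
  have hcq : c * q = 1 := by rw [hq]; field_simp
  refine ⟨hc, cond_of hm hc ?_⟩
  intro K
  -- the main inequality in the form `δ (φ - 1) ≤ (c - 1) (K - 2) / m + c q ^ K`
  have hq2 : δ * (φ - 1) ≤ q := by
    -- `δ (φ - 1) c ≤ 1`
    have h1 : δ * (φ - 1) * c ≤ 1 := by
      have : δ * (φ - 1) * c = δ * φ - δ ^ 2 * (φ - 1) := by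
        rw [hcd]
        linear_combination δ * hφ2
      rw [this]
      -- `1 - δ φ + δ² (φ - 1) = (1 - δ) (1 - δ (φ - 1))`
      have h2 : 1 - (δ * φ - δ ^ 2 * (φ - 1)) = (1 - δ) * (1 - δ * (φ - 1)) := by ring
      have h3 : 0 ≤ (1 - δ) * (1 - δ * (φ - 1)) := by
        apply mul_nonneg
        · linarith
        · nlinarith
      linarith
    have h2 : δ * (φ - 1) * (c * q) ≤ 1 * q := by
      have := mul_le_mul_of_nonneg_right h1 hq0.le
      linarith
    rw [hcq] at h2
    linarith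
  have hmain : δ * (φ - 1) ≤ (c - 1) * ((K : ℝ) - 2) / m + c * q ^ K ∨ K < 2 := by
    by_cases hK2 : K < 2
    · exact Or.inr hK2
    left
    push Not at hK2
    have hcm : 0 ≤ (c - 1) / m := div_nonneg (by linarith) hm0.le
    have hcm2 : (c - 1) / m = (c - 1) * δ / 2 := by
      rw [hδ]; ring
    rcases Nat.lt_or_ge K 4 with hK4 | hK4
    · have hK : K = 2 ∨ K = 3 := by omega
      rcases hK with rfl | rfl
      · have : c * q ^ 2 = q := by
          rw [pow_two, ← mul_assoc, hcq, one_mul]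
        rw [this]
        push_cast
        have h0 : (c - 1) * ((2 : ℝ) - 2) / m = 0 := by ring
        rw [h0]
        linarith
      · have h3 : c * q ^ 3 = q ^ 2 := by
          rw [pow_succ', ← mul_assoc, hcq, one_mul]
        rw [h3]
        push_cast
        have h0 : (c - 1) * ((3 : ℝ) - 2) / m = (c - 1) * δ / 2 := by
          rw [← hcm2]; ring
        rw [h0]
        -- `q² ≥ δ (φ - 1) q`, and `δ (φ - 1) q + (c - 1) δ / 2 ≥ δ (φ - 1)`
        have h4 : δ * (φ - 1) * q ≤ q ^ 2 := by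
          have := mul_le_mul_of_nonneg_right hq2 hq0.le
          rw [pow_two]
          exact this
        have h5 : (φ - 1) ≤ (φ - 1) * q + (c - 1) / 2 := by
          -- `(φ - 1) (1 - q) = (φ - 1) (c - 1) q ≤ (c - 1) / 2`
          have h6 : 1 - q = (c - 1) * q := by linear_combination -hcq
          have h7 : (φ - 1) * q ≤ 1 / 2 := by
            have h8 : c ≥ φ := by linarith
            have h9 : (φ - 1) * q * c ≤ 1 / 2 * c := by
              have : (φ - 1) * q * c = φ - 1 := by
                linear_combination (φ - 1) * hcq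
              rw [this]
              linarith
            exact le_of_mul_le_mul_right h9 hc0
          have h8 := mul_le_mul_of_nonneg_left h7 (by linarith : 0 ≤ c - 1)
          have h9 : (φ - 1) * (1 - q) = (c - 1) * ((φ - 1) * q) := by
            rw [h6]; ring
          linarith
        have h6 := mul_le_mul_of_nonneg_left h5 hδ0.le
        linarith
    · have hK4' : (4 : ℝ) ≤ K := by exact_mod_cast hK4
      have h1 : (c - 1) * δ ≤ (c - 1) * ((K : ℝ) - 2) / m := by
        have h2 : (c - 1) * ((K : ℝ) - 2) / m = ((K : ℝ) - 2) * ((c - 1) * δ / 2) := by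
          rw [← hcm2]; ring
        rw [h2]
        have h3 : 0 ≤ (c - 1) * δ / 2 := by
          have := mul_nonneg (by linarith : 0 ≤ c - 1) hδ0.le
          linarith
        nlinarith
      have h2 : 0 ≤ c * q ^ K := by positivity
      have h3 : (φ - 1) * δ ≤ (c - 1) * δ := mul_le_mul_of_nonneg_right (by linarith) hδ0.le
      linarith
  rcases hmain with h | h
  · have h1 : (c - 1) * ((K : ℝ) - 2) / m = (c - 1) * (K / m) - (c - 1) * δ := by
      rw [hδ]; ring
    rw [h1] at h
    -- `(c - 1)² - c = - δ (2 φ - 1 - δ)`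
    have h2 : (c - 1) ^ 2 - c = -(δ * (2 * φ - 1 - δ)) := by
      rw [hcd]
      linear_combination hφ2
    have h3 : (c - 1) * δ = (φ - δ) * δ := by rw [hcd]; ring
    linarith
  · have hK : K = 0 ∨ K = 1 := by omega
    have h2 : (c - 1) ^ 2 - c = -(δ * (2 * φ - 1 - δ)) := by
      rw [hcd]
      linear_combination hφ2
    rcases hK with rfl | rfl
    · push_cast
      rw [pow_zero, mul_one]
      have : (0 : ℝ) ≤ (c - 1) ^ 2 := sq_nonneg _
      simp only [zero_div, mul_zero, add_zero]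
      linarith
    · push_cast
      rw [pow_one, hcq]
      have h3 : (c - 1) * (1 / m) = (c - 1) * δ / 2 := by rw [hδ]; ring
      rw [h3]
      -- `δ (2 φ - 1 - δ) ≤ (φ - δ) δ / 2 + 1`
      have h4 : (c - 1) * δ = (φ - δ) * δ := by rw [hcd]; ring
      have h5 : δ * (2 * φ - 1 - δ) ≤ (φ - δ) * δ / 2 + 1 := by nlinarith
      linarith

/-- The bound for all `m`. -/
theorem R_le_golden (m : ℕ) (hm : 2 ≤ m) : R m ≤ 1 + Real.goldenRatio - 2 / m :=
  R_le_of hm (cond_golden m hm).1 (cond_golden m hm).2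

theorem R_four_le : R 4 ≤ 2 := by
  refine R_le_of (by norm_num) (by norm_num) ?_
  intro K
  rcases Nat.lt_or_ge K 4 with h | h
  · interval_cases K <;> norm_num [Finset.sum_range_succ]
  · have h1 := geom_eq (c := 2) (by norm_num) K
    have h2 : (0 : ℝ) ≤ 2 * (1 / 2) ^ K := by positivity
    have h3 : (4 : ℝ) ≤ K := by exact_mod_cast h
    push_cast
    linarith

theorem R_five_le : R 5 ≤ 2.1021 := by
  refine R_le_of (by norm_num) (by norm_num) ?_
  intro K
  rcases Nat.lt_or_ge K 5 with h | h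
  · interval_cases K <;> norm_num [Finset.sum_range_succ]
  · have h1 := geom_eq (c := 2.1021) (by norm_num) K
    have h2 : (0 : ℝ) ≤ 2.1021 * (1 / 2.1021) ^ K := by positivity
    have h3 : (5 : ℝ) ≤ K := by exact_mod_cast h
    have h4 : ∑ k ∈ Finset.range K, (1 / 2.1021 : ℝ) ^ k ≤ 2.1021 / 1.1021 := by
      rw [le_div_iff₀ (by norm_num)]
      linarith
    have h5 : (2.1021 : ℝ) / 1.1021 ≤ 2.1021 - 1 + 5 / 5 := by norm_num
    push_cast
    linarith

end Pool.Agent.H67S
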