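import Pool.Agent.H69.Sched.LogAlg

/-!
Tools for adversaries: forced rejections and forced acceptances of unit jobs.
-/

set_option autoImplicit false

namespace Pool.Agent.H67S

open Pool.Agent.H78.Sched Pool.Agent.H69.Sched

variable {m : ℕ}

/-- All jobs have positive running times and penalties. -/
def Pos (I : List (ℝ × ℝ)) : Prop := ∀ j ∈ I, 0 < j.1 ∧ 0 < j.2

/-- `k` machines have load `1`, the others are empty, the rejected penalty is `P`. -/
def St (A : List (ℝ × ℝ) → Option (Fin m)) (I : List (ℝ × ℝ)) (k : ℕ) (P : ℝ) : Prop :=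
  penalty I (run A I) = P ∧ ∃ S : Finset (Fin m), S.card = k ∧
    (∀ i ∈ S, load I (run A I) i = 1) ∧ ∀ i ∉ S, load I (run A I) i = 0

theorem load_run_snoc (A : List (ℝ × ℝ) → Option (Fin m)) (I : List (ℝ × ℝ)) (j : ℝ × ℝ)
    (i : Fin m) : load (I ++ [j]) (run A (I ++ [j])) i =
      load I (run A I) i + if A (I ++ [j]) = some i then j.1 else 0 := by
  rw [run_snoc, load_snoc (length_run _ _)]

theorem penalty_run_snoc (A : List (ℝ × ℝ) → Option (Fin m)) (I : List (ℝ × ℝ)) (j : ℝ × ℝ) :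
    penalty (I ++ [j]) (run A (I ++ [j])) =
      penalty I (run A I) + if A (I ++ [j]) = none then j.2 else 0 := by
  rw [run_snoc, penalty_snoc (length_run _ _)]

theorem cost_lt {A : List (ℝ × ℝ) → Option (Fin m)} {c c' U : ℝ} (hA : Competitive m A c')
    (hc : c' < c) {I : List (ℝ × ℝ)} (hI : Pos I) (hU : opt m I ≤ U) (hU0 : 0 < U) (i : Fin m) :
    load I (run A I) i + penalty I (run A I) < c * U := by
  have h1 : load I (run A I) i + penalty I (run A I) ≤ cost I (run A I) := by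
    unfold cost
    have := le_ciSup (bddAbove_load I (run A I)) i
    linarith
  have h2 := hA I hI
  have h3 : c' * opt m I ≤ c' * U := mul_le_mul_of_nonneg_left hU (comp_nonneg hA)
  have h4 : c' * U < c * U := mul_lt_mul_of_pos_right hc hU0
  linarith

theorem opt_le_of {I : List (ℝ × ℝ)} (hI : Pos I) (hm : 0 < m) {T q : ℝ}
    (σ : List (Option (Fin m)))
    (hlen : σ.length = I.length) (hT : ∀ i, load I σ i ≤ T) (hq : penalty I σ ≤ q) :
    opt m I ≤ T + q := by
  refine (opt_le (m := m) hI hlen).trans ?_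
  unfold cost
  have : Nonempty (Fin m) := ⟨⟨0, hm⟩⟩
  have := ciSup_le hT
  linarith

theorem Pos.snoc {I : List (ℝ × ℝ)} (hI : Pos I) {t p : ℝ} (ht : 0 < t) (hp : 0 < p) :
    Pos (I ++ [(t, p)]) := by
  intro j hj
  rw [List.mem_append, List.mem_singleton] at hj
  rcases hj with h | rfl
  · exact hI j h
  · exact ⟨ht, hp⟩

theorem St.nil (A : List (ℝ × ℝ) → Option (Fin m)) : St A [] 0 0 := by
  refine ⟨by simp [penalty], ∅, rfl, by simp, fun i _ => by simp [load]⟩

theorem St.nonneg {A : List (ℝ × ℝ) → Option (Fin m)} {I : List (ℝ × ℝ)} {k : ℕ} {P : ℝ}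
    (h : St A I k P) (i : Fin m) : 0 ≤ load I (run A I) i := by
  obtain ⟨_, S, _, h1, h2⟩ := h
  by_cases hi : i ∈ S
  · rw [h1 i hi]; exact zero_le_one
  · rw [h2 i hi]

theorem St.full {A : List (ℝ × ℝ) → Option (Fin m)} {I : List (ℝ × ℝ)} {P : ℝ}
    (h : St A I m P) (i : Fin m) : load I (run A I) i = 1 := by
  obtain ⟨_, S, hS, h1, _⟩ := h
  have : S = Finset.univ := by
    rw [← Finset.card_eq_iff_eq_univ, hS, Fintype.card_fin]
  exact h1 i (by rw [this]; exact Finset.mem_univ i)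

/-- A forced rejection. -/
theorem St.rej {A : List (ℝ × ℝ) → Option (Fin m)} {c c' U ℓ t p P : ℝ} {k : ℕ}
    (hA : Competitive m A c') (hc : c' < c) {I : List (ℝ × ℝ)} (h : St A I k P)
    (hI : Pos I) (ht : 0 < t) (hp : 0 < p) (hU : opt m (I ++ [(t, p)]) ≤ U) (hU0 : 0 < U)
    (hℓ : ∀ i, ℓ ≤ load I (run A I) i) (hbad : c * U ≤ ℓ + t + P) :
    St A (I ++ [(t, p)]) k (P + p) := by
  have hdec : A (I ++ [(t, p)]) = none := by
    by_contra hne
    obtain ⟨i, hi⟩ := Option.ne_none_iff_exists'.1 hne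
    have h1 := cost_lt hA hc (hI.snoc ht hp) hU hU0 i
    rw [load_run_snoc, penalty_run_snoc, if_pos hi, if_neg hne, h.1] at h1
    have h2 := hℓ i
    have h3 : ((t, p) : ℝ × ℝ).1 = t := rfl
    rw [h3] at h1
    linarith
  obtain ⟨hP, S, hS, h1, h2⟩ := h
  refine ⟨?_, S, hS, fun i hi => ?_, fun i hi => ?_⟩
  · rw [penalty_run_snoc, if_pos hdec, hP]
  · rw [load_run_snoc, h1 i hi, hdec]; simp
  · rw [load_run_snoc, h2 i hi, hdec]; simp

/-- A forced acceptance of a unit job, if `k` machines are already used. -/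
theorem St.acc {A : List (ℝ × ℝ) → Option (Fin m)} {c c' U p P : ℝ} {k : ℕ} (hk : 0 < k)
    (hA : Competitive m A c') (hc : c' < c) {I : List (ℝ × ℝ)} (h : St A I k P)
    (hI : Pos I) (hp : 0 < p) (hU : opt m (I ++ [(1, p)]) ≤ U) (hU0 : 0 < U)
    (hrej : c * U ≤ 1 + P + p) (hst : c * U ≤ 2 + P) :
    St A (I ++ [(1, p)]) (k + 1) P := by
  obtain ⟨hP, S, hS, h1, h2⟩ := h
  have hne : A (I ++ [(1, p)]) ≠ none := by
    intro hnone
    obtain ⟨i, hi⟩ := Finset.card_pos.1 (by omega : 0 < S.card)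
    have h3 := cost_lt hA hc (hI.snoc one_pos hp) hU hU0 i
    rw [load_run_snoc, penalty_run_snoc, if_pos hnone, hnone, h1 i hi, hP] at h3
    simp only [reduceCtorEq, if_false, add_zero] at h3
    linarith
  obtain ⟨i, hi⟩ := Option.ne_none_iff_exists'.1 hne
  have hiS : i ∉ S := by
    intro hiS
    have h3 := cost_lt hA hc (hI.snoc one_pos hp) hU hU0 i
    rw [load_run_snoc, penalty_run_snoc, if_pos hi, if_neg hne, h1 i hiS, hP] at h3
    simp only [add_zero] at h3
    linarith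
  refine ⟨?_, insert i S, ?_, fun i' hi' => ?_, fun i' hi' => ?_⟩
  · rw [penalty_run_snoc, if_neg hne, hP, add_zero]
  · rw [Finset.card_insert_of_notMem hiS, hS]
  · rw [load_run_snoc, hi]
    rw [Finset.mem_insert] at hi'
    by_cases hii : i' = i
    · subst hii
      rw [h2 i' hiS]
      simp
    · rw [h1 i' (hi'.resolve_left hii)]
      have : ¬ (some i = some i') := fun hh => hii (Option.some.inj hh).symm
      rw [if_neg this, add_zero]
  · rw [Finset.mem_insert, not_or] at hi'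
    rw [load_run_snoc, hi, h2 i' hi'.2]
    have : ¬ (some i = some i') := fun hh => hi'.1 (Option.some.inj hh).symm
    rw [if_neg this, add_zero]

/-- A unit job when all machines are empty: it is accepted or rejected. -/
theorem St.split {A : List (ℝ × ℝ) → Option (Fin m)} {p P : ℝ} {I : List (ℝ × ℝ)}
    (h : St A I 0 P) :
    St A (I ++ [(1, p)]) 1 P ∨ St A (I ++ [(1, p)]) 0 (P + p) := by
  obtain ⟨hP, S, hS, h1, h2⟩ := h
  have hS' : S = ∅ := Finset.card_eq_zero.1 hS
  subst hS'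
  by_cases hdec : A (I ++ [(1, p)]) = none
  · right
    refine ⟨?_, ∅, rfl, by simp, fun i hi => ?_⟩
    · rw [penalty_run_snoc, if_pos hdec, hP]
    · rw [load_run_snoc, h2 i hi, hdec]; simp
  · left
    obtain ⟨i, hi⟩ := Option.ne_none_iff_exists'.1 hdec
    refine ⟨?_, {i}, Finset.card_singleton i, fun i' hi' => ?_, fun i' hi' => ?_⟩
    · rw [penalty_run_snoc, if_neg hdec, hP, add_zero]
    · rw [Finset.mem_singleton] at hi'
      subst hi'
      rw [load_run_snoc, hi, h2 i' (by simp)]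
      simp
    · rw [Finset.mem_singleton] at hi'
      rw [load_run_snoc, hi, h2 i' (by simp)]
      have : ¬ (some i = some i') := fun hh => hi' (Option.some.inj hh).symm
      rw [if_neg this, add_zero]

/-- The end: the last job can neither be accepted nor rejected. -/
theorem St.kill {A : List (ℝ × ℝ) → Option (Fin m)} {c c' U ℓ t p P : ℝ} {k : ℕ} (hm : 0 < m)
    (hA : Competitive m A c') (hc : c' < c) {I : List (ℝ × ℝ)} (h : St A I k P)
    (hI : Pos I) (ht : 0 < t) (hp : 0 < p) (hU : opt m (I ++ [(t, p)]) ≤ U) (hU0 : 0 < U)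
    (hℓ : ∀ i, ℓ ≤ load I (run A I) i) (hbad : c * U ≤ ℓ + t + P) (hbad' : c * U ≤ ℓ + P + p) :
    False := by
  have h' := St.rej hA hc h hI ht hp hU hU0 hℓ hbad
  have h1 := cost_lt hA hc (hI.snoc ht hp) hU hU0 ⟨0, hm⟩
  have h2 := hℓ ⟨0, hm⟩
  rw [load_run_snoc, h'.1] at h1
  have h3 : (0 : ℝ) ≤ if A (I ++ [(t, p)]) = some ⟨0, hm⟩ then ((t, p) : ℝ × ℝ).1 else 0 := by
    split_ifs
    · exact ht.le
    · exact le_rfl
  linarith

end Pool.Agent.H67S
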