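import Pool.Agent.H67S.Adv

/-!
Adversaries for four and five machines: unit jobs with small penalties must be rejected, then unit
jobs must be accepted on different machines while the optimum can still reject cheap ones, then
long jobs must be rejected, until the optimum accepts all long jobs on three machines and all unit
jobs on the others.
-/

set_option autoImplicit false

namespace Pool.Agent.H67S

open Pool.Agent.H78.Sched Pool.Agent.H69.Sched

/-- The adversary for `4` machines. -/
theorem le_four {A : List (ℝ × ℝ) → Option (Fin 4)} {c' : ℝ} (hA : Competitive 4 A c') :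
    1.9544 ≤ c' := by
  by_contra hc
  push Not at hc
  have q0 : Pos ([] : List (ℝ × ℝ)) := by
    intro j hj
    simp at hj
  have s0 := St.nil A
  have q1 := q0.snoc (t := 1) (p := 0.51166) (by norm_num) (by norm_num)
  have o1 : opt 4 _ ≤ (0.51166 : ℝ) :=
    (opt_le_of (T := 0) (q := 0.51166) (q1) (by norm_num) [none] rfl
        (by intro i; fin_cases i <;> simp [load] <;> norm_num)
        (by simp [penalty] <;> norm_num)).trans (by norm_num)
  have s1 := St.rej hA hc s0 q0 (by norm_num) (by norm_num) o1 (by norm_num)
    (fun i => s0.nonneg i) (by norm_num)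
  have q2 := q1.snoc (t := 1) (p := 0.2618) (by norm_num) (by norm_num)
  have o2 : opt 4 _ ≤ (0.77346 : ℝ) :=
    (opt_le_of (T := 0) (q := 0.77346) (q2) (by norm_num) [none, none] rfl
        (by intro i; fin_cases i <;> simp [load] <;> norm_num)
        (by simp [penalty] <;> norm_num)).trans (by norm_num)
  have s2 := St.rej hA hc s1 q1 (by norm_num) (by norm_num) o2 (by norm_num)
    (fun i => s1.nonneg i) (by norm_num)
  have q3 := q2.snoc (t := 1) (p := 0.18094) (by norm_num) (by norm_num)
  rcases St.split (p := 0.18094) s2 with s3 | r3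
  swap
  · have o := (opt_le_of (m := 4) (T := 1) (q := 0) (q3.snoc (t := 1) (p := 2) (by norm_num) (by norm_num))
      (by norm_num) [some 0, some 1, some 2, some 3] rfl
      (by intro i; fin_cases i <;> simp [load]) (by simp [penalty]))
    exact St.kill (by norm_num) hA hc r3 q3 (by norm_num) (by norm_num) o (by norm_num)
      (fun i => r3.nonneg i) (by norm_num) (by norm_num)
  have q4 := q3.snoc (t := 1) (p := 0.18094) (by norm_num) (by norm_num)
  have o4 : opt 4 _ ≤ (1 : ℝ) :=
    (opt_le_of (T := 1) (q := 0) (q4) (by norm_num) [some 0, some 1, some 2, some 3] rfl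
        (by intro i; fin_cases i <;> simp [load] <;> norm_num)
        (by simp [penalty] <;> norm_num)).trans (by norm_num)
  have s4 := St.acc (by norm_num) hA hc s3 q3 (by norm_num) o4 (by norm_num)
    (by norm_num) (by norm_num)
  have q5 := q4.snoc (t := 1) (p := 0.53457) (by norm_num) (by norm_num)
  have o5 : opt 4 _ ≤ (1.18094 : ℝ) :=
    (opt_le_of (T := 1) (q := 0.18094) (q5) (by norm_num) [some 0, some 1, none, some 2, some 3] rfl
        (by intro i; fin_cases i <;> simp [load] <;> norm_num)
        (by simp [penalty] <;> norm_num)).trans (by norm_num)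
  have s5 := St.acc (by norm_num) hA hc s4 q4 (by norm_num) o5 (by norm_num)
    (by norm_num) (by norm_num)
  have q6 := q5.snoc (t := 1) (p := 0.8882) (by norm_num) (by norm_num)
  have o6 : opt 4 _ ≤ (1.36188 : ℝ) :=
    (opt_le_of (T := 1) (q := 0.36188) (q6) (by norm_num) [some 0, some 1, none, none, some 2, some 3] rfl
        (by intro i; fin_cases i <;> simp [load] <;> norm_num)
        (by simp [penalty] <;> norm_num)).trans (by norm_num)
  have s6 := St.acc (by norm_num) hA hc s5 q5 (by norm_num) o6 (by norm_num)
    (by norm_num) (by norm_num)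
  have q7 := q6.snoc (t := 6) (p := 2.61553) (by norm_num) (by norm_num)
  have o7 : opt 4 _ ≤ (3.97741 : ℝ) :=
    (opt_le_of (T := 1) (q := 2.97741) (q7) (by norm_num) [some 0, some 1, none, none, some 2, some 3, none] rfl
        (by intro i; fin_cases i <;> simp [load] <;> norm_num)
        (by simp [penalty] <;> norm_num)).trans (by norm_num)
  have s7 := St.rej hA hc s6 q6 (by norm_num) (by norm_num) o7 (by norm_num)
    (fun i => (s6.full i).ge) (by norm_num)
  have q8 := q7.snoc (t := 6) (p := 1.33828) (by norm_num) (by norm_num)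
  have o8 : opt 4 _ ≤ (5.31569 : ℝ) :=
    (opt_le_of (T := 1) (q := 4.31569) (q8) (by norm_num) [some 0, some 1, none, none, some 2, some 3, none, none] rfl
        (by intro i; fin_cases i <;> simp [load] <;> norm_num)
        (by simp [penalty] <;> norm_num)).trans (by norm_num)
  have s8 := St.rej hA hc s7 q7 (by norm_num) (by norm_num) o8 (by norm_num)
    (fun i => (s7.full i).ge) (by norm_num)
  have q9 := q8.snoc (t := 6) (p := 6) (by norm_num) (by norm_num)
  have o9 : opt 4 _ ≤ (6 : ℝ) :=
    (opt_le_of (T := 6) (q := 0) (q9) (by norm_num) [some 3, some 3, some 3, some 3, some 3, some 3, some 0, some 1, some 2] rfl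
        (by intro i; fin_cases i <;> simp [load] <;> norm_num)
        (by simp [penalty] <;> norm_num)).trans (by norm_num)
  exact St.kill (by norm_num) hA hc s8 q8 (by norm_num) (by norm_num) o9 (by norm_num)
    (fun i => (s8.full i).ge) (by norm_num) (by norm_num)

/-- The adversary for `5` machines. -/
theorem le_five {A : List (ℝ × ℝ) → Option (Fin 5)} {c' : ℝ} (hA : Competitive 5 A c') :
    2.0147 ≤ c' := by
  by_contra hc
  push Not at hc
  have q0 : Pos ([] : List (ℝ × ℝ)) := by
    intro j hj
    simp at hj
  have s0 := St.nil A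
  have q1 := q0.snoc (t := 1) (p := 0.4963) (by norm_num) (by norm_num)
  have o1 : opt 5 _ ≤ (0.4963 : ℝ) :=
    (opt_le_of (T := 0) (q := 0.4963) (q1) (by norm_num) [none] rfl
        (by intro i; fin_cases i <;> simp [load] <;> norm_num)
        (by simp [penalty] <;> norm_num)).trans (by norm_num)
  have s1 := St.rej hA hc s0 q0 (by norm_num) (by norm_num) o1 (by norm_num)
    (fun i => s0.nonneg i) (by norm_num)
  have q2 := q1.snoc (t := 1) (p := 0.2463) (by norm_num) (by norm_num)
  have o2 : opt 5 _ ≤ (0.7426 : ℝ) :=
    (opt_le_of (T := 0) (q := 0.7426) (q2) (by norm_num) [none, none] rfl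
        (by intro i; fin_cases i <;> simp [load] <;> norm_num)
        (by simp [penalty] <;> norm_num)).trans (by norm_num)
  have s2 := St.rej hA hc s1 q1 (by norm_num) (by norm_num) o2 (by norm_num)
    (fun i => s1.nonneg i) (by norm_num)
  have q3 := q2.snoc (t := 1) (p := 0.1223) (by norm_num) (by norm_num)
  have o3 : opt 5 _ ≤ (0.8649 : ℝ) :=
    (opt_le_of (T := 0) (q := 0.8649) (q3) (by norm_num) [none, none, none] rfl
        (by intro i; fin_cases i <;> simp [load] <;> norm_num)
        (by simp [penalty] <;> norm_num)).trans (by norm_num)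
  have s3 := St.rej hA hc s2 q2 (by norm_num) (by norm_num) o3 (by norm_num)
    (fun i => s2.nonneg i) (by norm_num)
  have q4 := q3.snoc (t := 1) (p := 0.1498) (by norm_num) (by norm_num)
  rcases St.split (p := 0.1498) s3 with s4 | r4
  swap
  · have o := (opt_le_of (m := 5) (T := 1) (q := 0) (q4.snoc (t := 1) (p := 2) (by norm_num) (by norm_num))
      (by norm_num) [some 0, some 1, some 2, some 3, some 4] rfl
      (by intro i; fin_cases i <;> simp [load]) (by simp [penalty]))
    exact St.kill (by norm_num) hA hc r4 q4 (by norm_num) (by norm_num) o (by norm_num)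
      (fun i => r4.nonneg i) (by norm_num) (by norm_num)
  have q5 := q4.snoc (t := 1) (p := 0.1498) (by norm_num) (by norm_num)
  have o5 : opt 5 _ ≤ (1 : ℝ) :=
    (opt_le_of (T := 1) (q := 0) (q5) (by norm_num) [some 0, some 1, some 2, some 3, some 4] rfl
        (by intro i; fin_cases i <;> simp [load] <;> norm_num)
        (by simp [penalty] <;> norm_num)).trans (by norm_num)
  have s5 := St.acc (by norm_num) hA hc s4 q4 (by norm_num) o5 (by norm_num)
    (by norm_num) (by norm_num)
  have q6 := q5.snoc (t := 1) (p := 0.3962) (by norm_num) (by norm_num)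
  have o6 : opt 5 _ ≤ (1.1223 : ℝ) :=
    (opt_le_of (T := 1) (q := 0.1223) (q6) (by norm_num) [some 0, some 1, none, some 2, some 3, some 4] rfl
        (by intro i; fin_cases i <;> simp [load] <;> norm_num)
        (by simp [penalty] <;> norm_num)).trans (by norm_num)
  have s6 := St.acc (by norm_num) hA hc s5 q5 (by norm_num) o6 (by norm_num)
    (by norm_num) (by norm_num)
  have q7 := q6.snoc (t := 1) (p := 0.698) (by norm_num) (by norm_num)
  have o7 : opt 5 _ ≤ (1.2721 : ℝ) :=
    (opt_le_of (T := 1) (q := 0.2721) (q7) (by norm_num) [some 0, some 1, none, none, some 2, some 3, some 4] rfl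
        (by intro i; fin_cases i <;> simp [load] <;> norm_num)
        (by simp [penalty] <;> norm_num)).trans (by norm_num)
  have s7 := St.acc (by norm_num) hA hc s6 q6 (by norm_num) o7 (by norm_num)
    (by norm_num) (by norm_num)
  have q8 := q7.snoc (t := 1) (p := 0.9999) (by norm_num) (by norm_num)
  have o8 : opt 5 _ ≤ (1.4219 : ℝ) :=
    (opt_le_of (T := 1) (q := 0.4219) (q8) (by norm_num) [some 0, some 1, none, none, none, some 2, some 3, some 4] rfl
        (by intro i; fin_cases i <;> simp [load] <;> norm_num)
        (by simp [penalty] <;> norm_num)).trans (by norm_num)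
  have s8 := St.acc (by norm_num) hA hc s7 q7 (by norm_num) o8 (by norm_num)
    (by norm_num) (by norm_num)
  have q9 := q8.snoc (t := 4) (p := 1.4891) (by norm_num) (by norm_num)
  have o9 : opt 5 _ ≤ (2.911 : ℝ) :=
    (opt_le_of (T := 1) (q := 1.911) (q9) (by norm_num) [some 0, some 1, none, none, none, some 2, some 3, some 4, none] rfl
        (by intro i; fin_cases i <;> simp [load] <;> norm_num)
        (by simp [penalty] <;> norm_num)).trans (by norm_num)
  have s9 := St.rej hA hc s8 q8 (by norm_num) (by norm_num) o9 (by norm_num)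
    (fun i => (s8.full i).ge) (by norm_num)
  have q10 := q9.snoc (t := 4) (p := 0.7391) (by norm_num) (by norm_num)
  have o10 : opt 5 _ ≤ (3.6501 : ℝ) :=
    (opt_le_of (T := 1) (q := 2.6501) (q10) (by norm_num) [some 0, some 1, none, none, none, some 2, some 3, some 4, none, none] rfl
        (by intro i; fin_cases i <;> simp [load] <;> norm_num)
        (by simp [penalty] <;> norm_num)).trans (by norm_num)
  have s10 := St.rej hA hc s9 q9 (by norm_num) (by norm_num) o10 (by norm_num)
    (fun i => (s9.full i).ge) (by norm_num)
  have q11 := q10.snoc (t := 4) (p := 4) (by norm_num) (by norm_num)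
  have o11 : opt 5 _ ≤ (4 : ℝ) :=
    (opt_le_of (T := 4) (q := 0) (q11) (by norm_num) [some 3, some 3, some 3, some 3, some 4, some 4, some 4, some 4, some 0, some 1, some 2] rfl
        (by intro i; fin_cases i <;> simp [load] <;> norm_num)
        (by simp [penalty] <;> norm_num)).trans (by norm_num)
  exact St.kill (by norm_num) hA hc s10 q10 (by norm_num) (by norm_num) o11 (by norm_num)
    (fun i => (s10.full i).ge) (by norm_num) (by norm_num)

end Pool.Agent.H67S
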