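import Pool.Agent.H67S.Adv

/-!
The adversary for `m ≥ 5` machines: `R m ≥ 2.0147`.
-/

set_option autoImplicit false

namespace Pool.Agent.H67S

open Pool.Agent.H78.Sched Pool.Agent.H69.Sched

variable {m : ℕ}

/-- Rejecting one job. -/
theorem opt_remove (I J : List (ℝ × ℝ)) (j : ℝ × ℝ)
    (hI : Pos (I ++ [j] ++ J)) : opt m (I ++ [j] ++ J) ≤ opt m (I ++ J) + j.2 := by
  rw [← sub_le_iff_le_add]
  unfold opt
  apply le_csInf
  · exact ⟨_, List.replicate (I ++ J).length none, by simp, rfl⟩
  · rintro y ⟨σ, hσ, rfl⟩
    rw [sub_le_iff_le_add]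
    obtain ⟨σ1, σ2, rfl, h1⟩ : ∃ σ1 σ2, σ = σ1 ++ σ2 ∧ σ1.length = I.length := by
      refine ⟨σ.take I.length, σ.drop I.length, (List.take_append_drop _ _).symm, ?_⟩
      rw [List.length_take, hσ, List.length_append]
      omega
    have h2 : σ2.length = J.length := by
      rw [List.length_append, List.length_append] at hσ
      omega
    have h3 : (σ1 ++ [none] ++ σ2).length = (I ++ [j] ++ J).length := by
      simp [h1, h2]
    refine (opt_le (m := m) hI h3).trans ?_
    unfold cost
    have h4 : ∀ i : Fin m, load (I ++ [j] ++ J) (σ1 ++ [none] ++ σ2) i =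
        load (I ++ J) (σ1 ++ σ2) i := by
      intro i
      rw [load_append (by simp [h1]), load_append h1.symm, load_append h1.symm]
      simp [load]
    have h5 : penalty (I ++ [j] ++ J) (σ1 ++ [none] ++ σ2) =
        penalty (I ++ J) (σ1 ++ σ2) + j.2 := by
      rw [penalty_append (by simp [h1]), penalty_append h1.symm, penalty_append h1.symm]
      simp [penalty]
      ring
    simp only [h4, h5]
    linarith

/-- At most `m` unit jobs cost at most `1`. -/
theorem opt_units {I : List (ℝ × ℝ)} (hI : Pos I) (hu : ∀ j ∈ I, j.1 = 1)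
    (hn : I.length ≤ m) : opt m I ≤ 1 := by
  have hlen : ((List.finRange I.length).map (fun k => some (Fin.castLE hn k))).length =
      I.length := by simp
  refine (opt_le hI hlen).trans ?_
  unfold cost
  have h1 : penalty I ((List.finRange I.length).map (fun k => some (Fin.castLE hn k))) = 0 := by
    apply penalty_of_all_some
    intro d hd
    rw [List.mem_map] at hd
    obtain ⟨k, _, rfl⟩ := hd
    simp
  rw [h1, add_zero]
  apply makespan_le hu hlen
  intro i
  apply List.nodup_iff_count_le_one.1
  apply List.Nodup.map _ (List.nodup_finRange _)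
  intro a b hab
  have := Option.some.inj hab
  exact Fin.castLE_injective hn this

/-- The unit jobs of the adversary after `k` jobs `(1, g)`. -/
noncomputable def G (k : ℕ) : List (ℝ × ℝ) :=
  [((1 : ℝ), (0.4963 : ℝ)), (1, 0.2463)] ++ [(1, 0.1223)] ++ List.replicate k (1, 0.1498)

theorem G_succ (k : ℕ) : G (k + 1) = G k ++ [(1, 0.1498)] := by
  unfold G
  rw [List.replicate_succ', List.append_assoc _ _ [((1 : ℝ), (0.1498 : ℝ))]]

theorem pos_replicate (k : ℕ) : Pos (List.replicate k ((1 : ℝ), (0.1498 : ℝ))) := by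
  intro j hj
  rw [List.mem_replicate] at hj
  rw [hj.2]
  constructor <;> norm_num

theorem Pos.append {I J : List (ℝ × ℝ)} (hI : Pos I) (hJ : Pos J) : Pos (I ++ J) := by
  intro j hj
  rw [List.mem_append] at hj
  exact hj.elim (hI j) (hJ j)

theorem pos_G (k : ℕ) : Pos (G k) := by
  unfold G
  refine Pos.append ?_ (pos_replicate k)
  intro j hj
  simp only [List.cons_append, List.nil_append, List.mem_cons, List.not_mem_nil, or_false] at hj
  rcases hj with rfl | rfl | rfl <;> constructor <;> norm_num

theorem unit_replicate (k : ℕ) : ∀ j ∈ List.replicate k ((1 : ℝ), (0.1498 : ℝ)), j.1 = 1 := by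
  intro j hj
  rw [List.mem_replicate] at hj
  rw [hj.2]

theorem unit_G (k : ℕ) : ∀ j ∈ G k, j.1 = 1 := by
  intro j hj
  unfold G at hj
  rw [List.mem_append] at hj
  rcases hj with h | h
  · simp only [List.cons_append, List.nil_append, List.mem_cons, List.not_mem_nil,
      or_false] at h
    rcases h with rfl | rfl | rfl <;> rfl
  · exact unit_replicate k j h

theorem length_G (k : ℕ) : (G k).length = k + 3 := by
  unfold G
  simp

/-- Removing the third job and `r` of the jobs `(1, g)`. -/
theorem opt_G_append (hm : 0 < m) (r k : ℕ) (J : List (ℝ × ℝ)) (hJ : Pos J)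
    (hu : ∀ j ∈ J, j.1 = 1) (hlen : k + J.length + 2 ≤ m) :
    opt m (G (k + r) ++ J) ≤ 1.1223 + r * 0.1498 := by
  have h1 : ∀ r : ℕ, opt m ([((1 : ℝ), (0.4963 : ℝ)), (1, 0.2463)] ++
      (List.replicate (k + r) (1, 0.1498) ++ J)) ≤ 1 + r * 0.1498 := by
    intro r
    induction r with
    | zero =>
      have hpos : Pos ([((1 : ℝ), (0.4963 : ℝ)), (1, 0.2463)] ++
          (List.replicate (k + 0) (1, 0.1498) ++ J)) := by
        refine Pos.append ?_ ((pos_replicate _).append hJ)
        intro j hj
        simp only [List.mem_cons, List.not_mem_nil, or_false] at hj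
        rcases hj with rfl | rfl <;> constructor <;> norm_num
      have := opt_units (m := m) hpos (by
        intro j hj
        rw [List.mem_append, List.mem_append] at hj
        rcases hj with h | h | h
        · simp only [List.mem_cons, List.not_mem_nil, or_false] at h
          rcases h with rfl | rfl <;> rfl
        · exact unit_replicate _ j h
        · exact hu j h) (by simp; omega)
      simpa using this
    | succ r ih =>
      have e : [((1 : ℝ), (0.4963 : ℝ)), (1, 0.2463)] ++
          (List.replicate (k + (r + 1)) (1, 0.1498) ++ J) =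
          [((1 : ℝ), (0.4963 : ℝ)), (1, 0.2463)] ++ [(1, 0.1498)] ++
            (List.replicate (k + r) (1, 0.1498) ++ J) := by
        rw [← Nat.add_assoc, List.replicate_succ]
        simp
      have hpos : Pos ([((1 : ℝ), (0.4963 : ℝ)), (1, 0.2463)] ++ [(1, 0.1498)] ++
            (List.replicate (k + r) (1, 0.1498) ++ J)) := by
        refine Pos.append ?_ ((pos_replicate _).append hJ)
        intro j hj
        simp only [List.cons_append, List.nil_append, List.mem_cons, List.not_mem_nil,
          or_false] at hj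
        rcases hj with rfl | rfl | rfl <;> constructor <;> norm_num
      have h2 := opt_remove (m := m) _ _ _ hpos
      rw [e]
      push_cast
      have h3 : (((1 : ℝ), (0.1498 : ℝ)) : ℝ × ℝ).2 = 0.1498 := rfl
      rw [h3] at h2
      linarith
  have hpos : Pos ([((1 : ℝ), (0.4963 : ℝ)), (1, 0.2463)] ++ [(1, 0.1223)] ++
      (List.replicate (k + r) (1, 0.1498) ++ J)) := by
    have := (pos_G (k + r)).append hJ
    unfold G at this
    rwa [List.append_assoc] at this
  have h2 := opt_remove (m := m) _ _ _ hpos
  have h3 : (((1 : ℝ), (0.1223 : ℝ)) : ℝ × ℝ).2 = 0.1223 := rfl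
  rw [h3] at h2
  have h4 := h1 r
  unfold G
  rw [List.append_assoc]
  linarith

/-- Rejecting the last job. -/
theorem opt_snoc_le (hm : 0 < m) {I : List (ℝ × ℝ)} {t p U : ℝ} (hI : Pos (I ++ [(t, p)]))
    (h : opt m I ≤ U) : opt m (I ++ [(t, p)]) ≤ U + p := by
  have h1 := opt_remove (m := m) I [] (t, p) (by simpa using hI)
  simp only [List.append_nil] at h1
  linarith

/-- Four unit jobs on each machine `≥ 3`. -/
theorem opt_last (hm : 5 ≤ m) {I : List (ℝ × ℝ)} (hI : Pos I) (hu : ∀ j ∈ I, j.1 = 1)
    (hn : I.length = m + 3) {p1 p2 p3 : ℝ} (hp1 : 0 < p1) (hp2 : 0 < p2) (hp3 : 0 < p3) :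
    opt m (I ++ [(4, p1)] ++ [(4, p2)] ++ [(4, p3)]) ≤ 4 := by
  have hpos : Pos (I ++ [(4, p1)] ++ [(4, p2)] ++ [(4, p3)]) :=
    ((hI.snoc (by norm_num) hp1).snoc (by norm_num) hp2).snoc (by norm_num) hp3
  set f : Fin (m + 3) → Option (Fin m) := fun k => some ⟨3 + k.1 / 4, by omega⟩ with hf
  set τ : List (Option (Fin m)) := (List.finRange (m + 3)).map f with hτ
  have hτl : τ.length = I.length := by simp [hτ, hn]
  set σ : List (Option (Fin m)) := τ ++ [some ⟨0, by omega⟩] ++ [some ⟨1, by omega⟩] ++
    [some ⟨2, by omega⟩] with hσ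
  have hlen : σ.length = (I ++ [((4 : ℝ), p1)] ++ [(4, p2)] ++ [(4, p3)]).length := by
    simp [hσ, hτl]
  refine (opt_le hpos hlen).trans ?_
  unfold cost
  have hpen : penalty (I ++ [((4 : ℝ), p1)] ++ [(4, p2)] ++ [(4, p3)]) σ = 0 := by
    apply penalty_of_all_some
    intro d hd
    rw [hσ] at hd
    simp only [List.mem_append, List.mem_singleton] at hd
    rcases hd with ((h | h) | h) | h
    · rw [hτ, List.mem_map] at h
      obtain ⟨k, _, rfl⟩ := h
      simp [hf]
    all_goals (rw [h]; simp)
  rw [hpen, add_zero]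
  have : Nonempty (Fin m) := ⟨⟨0, by omega⟩⟩
  apply ciSup_le
  intro i
  rw [hσ, load_append (by simp [hτl]), load_append (by simp [hτl]), load_append hτl.symm,
    load_unit hu hτl]
  have hcount : (τ.count (some i) : ℝ) ≤ if 3 ≤ i.1 then 4 else 0 := by
    have h1 : τ.count (some i) =
        ((Finset.univ : Finset (Fin (m + 3))).filter (fun k => f k = some i)).card := by
      rw [hτ, List.count_eq_countP, List.countP_map, List.countP_eq_length_filter]
      rw [← List.toFinset_card_of_nodup ((List.nodup_finRange _).filter _)]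
      congr 1
      ext k
      simp
    rw [h1]
    split_ifs with hi
    · have h2 : ((Finset.univ : Finset (Fin (m + 3))).filter (fun k => f k = some i)).card ≤
          (Finset.Ico (4 * (i.1 - 3)) (4 * (i.1 - 3) + 4)).card := by
        apply Finset.card_le_card_of_injOn (fun k => k.1)
        · intro k hk
          rw [Finset.mem_coe, Finset.mem_filter] at hk
          have h3 := Option.some.inj hk.2
          have h4 : 3 + k.1 / 4 = i.1 := by rw [← h3]
          rw [Finset.mem_coe, Finset.mem_Ico]
          show 4 * (i.1 - 3) ≤ k.1 ∧ k.1 < 4 * (i.1 - 3) + 4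
          constructor <;> omega
        · intro a _ b _ hab
          exact Fin.ext hab
      rw [Nat.card_Ico] at h2
      have h3 : 4 * (i.1 - 3) + 4 - 4 * (i.1 - 3) = 4 := by omega
      rw [h3] at h2
      exact_mod_cast h2
    · have h2 : (Finset.univ : Finset (Fin (m + 3))).filter (fun k => f k = some i) = ∅ := by
        rw [Finset.filter_eq_empty_iff]
        intro k _ hk
        have h3 := Option.some.inj hk
        have h4 : 3 + k.1 / 4 = i.1 := by rw [← h3]
        omega
      rw [h2]
      simp
  have e : ∀ a : Fin m, ∀ p : ℝ, load [((4 : ℝ), p)] [some a] i = if a = i then 4 else 0 := by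
    intro a p
    simp [load]
  rw [e, e, e]
  have h0 : ∀ a : ℕ, ∀ h : a < m, ((⟨a, h⟩ : Fin m) = i ↔ a = i.1) := by
    intro a h
    constructor
    · intro hh; rw [← hh]
    · intro hh; exact Fin.ext hh
  simp only [h0]
  by_cases hi : 3 ≤ i.1
  · rw [if_pos hi] at hcount
    rw [if_neg (by omega), if_neg (by omega), if_neg (by omega)]
    linarith
  · rw [if_neg hi] at hcount
    have hi' : i.1 = 0 ∨ i.1 = 1 ∨ i.1 = 2 := by omega
    rcases hi' with h | h | h
    · rw [h, if_pos rfl, if_neg (by norm_num), if_neg (by norm_num)]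
      linarith
    · rw [h, if_neg (by norm_num), if_pos rfl, if_neg (by norm_num)]
      linarith
    · rw [h, if_neg (by norm_num), if_neg (by norm_num), if_pos rfl]
      linarith

/-- The adversary. -/
theorem le_of_five_le (hm : 5 ≤ m) {A : List (ℝ × ℝ) → Option (Fin m)} {c' : ℝ}
    (hA : Competitive m A c') : 2.0147 ≤ c' := by
  by_contra hc
  push Not at hc
  have hm0 : 0 < m := by omega
  have q0 : Pos ([] : List (ℝ × ℝ)) := by
    intro j hj
    simp at hj
  have s0 := St.nil A
  have opt0 : opt m ([] : List (ℝ × ℝ)) ≤ 0 := by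
    have := opt_le_reject (m := m) q0
    simpa using this
  have q1 := q0.snoc (t := 1) (p := 0.4963) (by norm_num) (by norm_num)
  have o1 := opt_snoc_le hm0 q1 opt0
  have s1 := St.rej hA hc s0 q0 (by norm_num) (by norm_num) o1 (by norm_num)
    (fun i => s0.nonneg i) (by norm_num)
  have q2 := q1.snoc (t := 1) (p := 0.2463) (by norm_num) (by norm_num)
  have o2 := opt_snoc_le hm0 q2 o1
  have s2 := St.rej hA hc s1 q1 (by norm_num) (by norm_num) o2 (by norm_num)
    (fun i => s1.nonneg i) (by norm_num)
  have q3 := q2.snoc (t := 1) (p := 0.1223) (by norm_num) (by norm_num)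
  have o3 := opt_snoc_le hm0 q3 o2
  have s3 := St.rej hA hc s2 q2 (by norm_num) (by norm_num) o3 (by norm_num)
    (fun i => s2.nonneg i) (by norm_num)
  have sG0 : St A (G 0) 0 0.8649 := by
    have e : (0 + 0.4963 + 0.2463 + 0.1223 : ℝ) = 0.8649 := by norm_num
    rw [e] at s3
    exact s3
  -- the first job `(1, g)`
  have sG1 : St A (G 1) 1 0.8649 := by
    rw [G_succ]
    rcases St.split (p := 0.1498) sG0 with h | h
    · exact h
    · exfalso
      have q4 : Pos (G 0 ++ [(1, 0.1498)]) := (pos_G 0).snoc (by norm_num) (by norm_num)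
      have q5 := q4.snoc (t := 1) (p := 2) (by norm_num) (by norm_num)
      have o : opt m (G 0 ++ [(1, 0.1498)] ++ [(1, 2)]) ≤ 1 := by
        apply opt_units q5
        · intro j hj
          rw [← G_succ, List.mem_append, List.mem_singleton] at hj
          rcases hj with h | rfl
          · exact unit_G 1 j h
          · rfl
        · simp [length_G]
          omega
      exact St.kill hm0 hA hc h q4 (by norm_num) (by norm_num) o (by norm_num)
        (fun i => h.nonneg i) (by norm_num) (by norm_num)
  -- the other jobs `(1, g)`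
  have sG : ∀ k : ℕ, 1 ≤ k → k + 3 ≤ m → St A (G k) k 0.8649 := by
    intro k hk
    induction k, hk using Nat.le_induction with
    | base => intro _; exact sG1
    | succ k hk ih =>
      intro hkm
      have h := ih (by omega)
      have hq : Pos (G k ++ [(1, 0.1498)]) := (pos_G k).snoc (by norm_num) (by norm_num)
      have o : opt m (G k ++ [(1, 0.1498)]) ≤ 1 := by
        apply opt_units hq
        · rw [← G_succ]; exact unit_G _
        · simp [length_G]; omega
      rw [G_succ]
      exact St.acc hk hA hc h (pos_G k) (by norm_num) o (by norm_num) (by norm_num)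
        (by norm_num)
  obtain ⟨n, rfl⟩ : ∃ n, m = n + 3 := ⟨m - 3, by omega⟩
  have t0 := sG n (by omega) le_rfl
  have p0 := pos_G n
  have single : ∀ p : ℝ, 0 < p → Pos [((1 : ℝ), p)] := by
    intro p hp j hj
    rw [List.mem_singleton] at hj
    subst hj
    exact ⟨one_pos, hp⟩
  -- `x₁`
  have oo1 : opt (n + 3) (G n ++ [(1, 0.3962)]) ≤ 1.1223 := by
    have := opt_G_append (m := n + 3) hm0 0 n [(1, 0.3962)] (single _ (by norm_num))
      (by intro j hj; rw [List.mem_singleton] at hj; subst hj; rfl) (by simp)
    simpa using this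
  have t1 := St.acc (by omega) hA hc t0 p0 (by norm_num) oo1 (by norm_num) (by norm_num)
    (by norm_num)
  have p1 := p0.snoc (t := 1) (p := 0.3962) (by norm_num) (by norm_num)
  -- `x₂`
  have oo2 : opt (n + 3) (G n ++ [(1, 0.3962)] ++ [(1, 0.698)]) ≤ 1.2721 := by
    obtain ⟨k, rfl⟩ : ∃ k, n = k + 1 := ⟨n - 1, by omega⟩
    have := opt_G_append (m := k + 1 + 3) hm0 1 k [(1, 0.3962), (1, 0.698)]
      ((single _ (by norm_num)).snoc (by norm_num) (by norm_num))
      (by
        intro j hj
        simp only [List.mem_cons, List.not_mem_nil, or_false] at hj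
        rcases hj with rfl | rfl <;> rfl) (by simp)
    rw [List.append_assoc]
    refine this.trans ?_
    norm_num
  have t2 := St.acc (by omega) hA hc t1 p1 (by norm_num) oo2 (by norm_num) (by norm_num)
    (by norm_num)
  have p2 := p1.snoc (t := 1) (p := 0.698) (by norm_num) (by norm_num)
  -- `x₃`
  have oo3 : opt (n + 3) (G n ++ [(1, 0.3962)] ++ [(1, 0.698)] ++ [(1, 0.9999)]) ≤ 1.4219 := by
    obtain ⟨k, rfl⟩ : ∃ k, n = k + 2 := ⟨n - 2, by omega⟩
    have := opt_G_append (m := k + 2 + 3) hm0 2 k [(1, 0.3962), (1, 0.698), (1, 0.9999)]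
      (((single _ (by norm_num)).snoc (t := 1) (p := 0.698) (by norm_num) (by norm_num)).snoc
        (by norm_num) (by norm_num))
      (by
        intro j hj
        simp only [List.mem_cons, List.not_mem_nil, or_false] at hj
        rcases hj with rfl | rfl | rfl <;> rfl) (by simp)
    rw [List.append_assoc, List.append_assoc]
    refine this.trans ?_
    norm_num
  have t3 := St.acc (by omega) hA hc t2 p2 (by norm_num) oo3 (by norm_num) (by norm_num)
    (by norm_num)
  have p3 := p2.snoc (t := 1) (p := 0.9999) (by norm_num) (by norm_num)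
  -- the long jobs
  have hfull : ∀ {I : List (ℝ × ℝ)} {P : ℝ}, St A I (n + 1 + 1 + 1) P →
      ∀ i, 1 ≤ load I (run A I) i := fun h i => (St.full h i).ge
  have p4 := p3.snoc (t := 4) (p := 1.4891) (by norm_num) (by norm_num)
  have oo4 := opt_snoc_le hm0 p4 oo3
  have t4 := St.rej hA hc t3 p3 (by norm_num) (by norm_num) oo4 (by norm_num)
    (hfull t3) (by norm_num)
  have p5 := p4.snoc (t := 4) (p := 0.7391) (by norm_num) (by norm_num)
  have oo5 := opt_snoc_le hm0 p5 oo4
  have t5 := St.rej hA hc t4 p4 (by norm_num) (by norm_num) oo5 (by norm_num)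
    (hfull t4) (by norm_num)
  have oo6 := opt_last (m := n + 3) hm (I := G n ++ [(1, 0.3962)] ++ [(1, 0.698)] ++
    [(1, 0.9999)]) p3 (by
      intro j hj
      simp only [List.mem_append, List.mem_singleton] at hj
      rcases hj with ((h | rfl) | rfl) | rfl
      · exact unit_G n j h
      · rfl
      · rfl
      · rfl) (by simp [length_G]) (p1 := 1.4891) (p2 := 0.7391) (p3 := 4)
      (by norm_num) (by norm_num) (by norm_num)
  exact St.kill hm0 hA hc t5 p5 (by norm_num) (by norm_num) oo6 (by norm_num)
    (hfull t5) (by norm_num) (by norm_num)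

end Pool.Agent.H67S
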