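import Pool.Agent.H67S.UpMain
import Pool.Agent.H67S.Low
import Pool.Agent.H67S.LowM

/-!
The bounds for `R m`.
-/

set_option autoImplicit false

namespace Pool.Agent.H67S

open Pool.Agent.H78.Sched Pool.Agent.H69.Sched

theorem exists_competitive (m : ℕ) (hm : 2 ≤ m) :
    ∃ (c : ℝ) (A : List (ℝ × ℝ) → Option (Fin m)), Competitive m A c := by
  refine ⟨3, alg (by omega) 3, competitive_of hm (by norm_num) ?_⟩
  intro K
  have h1 := geom_eq (c := 3) (by norm_num) K
  have h2 : (0 : ℝ) ≤ 3 * (1 / 3) ^ K := by positivity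
  have h3 : (0 : ℝ) ≤ K / m := by positivity
  linarith

theorem le_R {m : ℕ} (hm : 2 ≤ m) {x : ℝ}
    (h : ∀ (A : List (ℝ × ℝ) → Option (Fin m)) (c' : ℝ), Competitive m A c' → x ≤ c') :
    x ≤ R m := by
  obtain ⟨c, A, hA⟩ := exists_competitive m hm
  refine le_csInf ⟨c, A, hA⟩ ?_
  rintro y ⟨B, hB⟩
  exact h B y hB

theorem le_R_four : 1.9544 ≤ R 4 := le_R (by norm_num) (fun _ _ h => le_four h)

theorem le_R_of_five_le (m : ℕ) (hm : 5 ≤ m) : 2.0147 ≤ R m :=
  le_R (by omega) (fun _ _ h => le_of_five_le hm h)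

theorem R_le_two_iff (m : ℕ) (hm : 2 ≤ m) : R m ≤ 2 ↔ m ≤ 4 := by
  constructor
  · intro h
    by_contra h4
    have := le_R_of_five_le m (by omega)
    norm_num at this
    linarith
  · intro h
    have h5 : Real.goldenRatio < 1.6181 := by
      have h5 : Real.sqrt 5 < 2.2361 := by
        rw [show (2.2361 : ℝ) = Real.sqrt (2.2361 ^ 2) by rw [Real.sqrt_sq (by norm_num)]]
        exact Real.sqrt_lt_sqrt (by norm_num) (by norm_num)
      rw [Real.goldenRatio]
      linarith
    interval_cases m
    · have := R_le_golden 2 le_rfl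
      push_cast at this
      linarith
    · have := R_le_golden 3 (by norm_num)
      push_cast at this
      linarith
    · exact R_four_le

end Pool.Agent.H67S
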