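import Pool.Agent.H67S.Final

namespace Pool.Agent.H67S.SmallMachines

open Pool.Agent.H78.Sched

/-- Bounds for the optimal competitive ratio `R m` for each fixed number `m` of machines: an upper
bound for every `m ≥ 2`, in particular `R m ≤ 1 + φ - 2 / m`; `1.9544 ≤ R 4 ≤ 2`;
`2.0147 ≤ R 5 ≤ 2.1021`; and `R m ≥ 2.0147` for every `m ≥ 5`, so that `R m ≤ 2` if and only if
`m ≤ 4`. -/
theorem result :
    (∀ (m : ℕ) (c : ℝ), 2 ≤ m → 1 < c →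
      (∀ K : ℕ, ∑ k ∈ Finset.range K, (1 / c) ^ k ≤ c - 1 + K / m) → R m ≤ c) ∧
    (∀ m : ℕ, 2 ≤ m → R m ≤ 1 + Real.goldenRatio - 2 / m) ∧
    (1.9544 ≤ R 4 ∧ R 4 ≤ 2) ∧
    (2.0147 ≤ R 5 ∧ R 5 ≤ 2.1021) ∧
    (∀ m : ℕ, 5 ≤ m → 2.0147 ≤ R m) ∧
    (∀ m : ℕ, 2 ≤ m → (R m ≤ 2 ↔ m ≤ 4)) :=
  ⟨fun _ _ hm hc h => Pool.Agent.H67S.R_le_of hm hc h,
    Pool.Agent.H67S.R_le_golden,
    ⟨Pool.Agent.H67S.le_R_four, Pool.Agent.H67S.R_four_le⟩,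
    ⟨Pool.Agent.H67S.le_R_of_five_le 5 le_rfl, Pool.Agent.H67S.R_five_le⟩,
    Pool.Agent.H67S.le_R_of_five_le,
    Pool.Agent.H67S.R_le_two_iff⟩

end Pool.Agent.H67S.SmallMachines
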