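import Pool.Agent.H69.Sched.LogAlg

/-!
A threshold algorithm with List Scheduling for general running times, with a better analysis for a
small number of machines. A job `(t, p)` is rejected if `p ≤ t / m` (rule B) or if
`(c - 1) X + c p < t`, where `X` is the total penalty of the jobs rejected so far by this second
rule (rule C). Otherwise it is put on a least loaded machine. The algorithm is `c`-competitive as
soon as `1 + 1/c + ... + 1/c^(K-1) ≤ c - 1 + K/m` for all `K`.
-/

set_option autoImplicit false

namespace Pool.Agent.H67S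

open Pool.Agent.H78.Sched Pool.Agent.H69.Sched

variable {m : ℕ}

/-- The decision. -/
noncomputable def dec (hm : 0 < m) (c : ℝ) (s : St m) (j : ℝ × ℝ) : Option (Fin m) :=
  if m * j.2 ≤ j.1 then none
  else if (c - 1) * s.X + c * j.2 < j.1 then none
  else some (amin hm s.a)

/-- The next state. -/
noncomputable def nxt (hm : 0 < m) (c : ℝ) (s : St m) (j : ℝ × ℝ) : St m :=
  if m * j.2 ≤ j.1 then s
  else if (c - 1) * s.X + c * j.2 < j.1 then ⟨s.a, s.X + j.2⟩
  else ⟨fun i => s.a i + if amin hm s.a = i then j.1 else 0, s.X⟩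

/-- The state after a list of jobs. -/
noncomputable def state (hm : 0 < m) (c : ℝ) (L : List (ℝ × ℝ)) : St m :=
  L.foldl (nxt hm c) ⟨fun _ => 0, 0⟩

theorem state_nil (hm : 0 < m) (c : ℝ) : state hm c [] = ⟨fun _ => 0, 0⟩ := rfl

theorem state_snoc (hm : 0 < m) (c : ℝ) (L : List (ℝ × ℝ)) (j : ℝ × ℝ) :
    state hm c (L ++ [j]) = nxt hm c (state hm c L) j := by
  unfold state
  rw [List.foldl_append]
  rfl

/-- The algorithm. -/
noncomputable def alg (hm : 0 < m) (c : ℝ) (L : List (ℝ × ℝ)) : Option (Fin m) :=
  L.getLast?.bind (fun j => dec hm c (state hm c L.dropLast) j)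

theorem alg_snoc (hm : 0 < m) (c : ℝ) (L : List (ℝ × ℝ)) (j : ℝ × ℝ) :
    alg hm c (L ++ [j]) = dec hm c (state hm c L) j := by
  simp [alg]

/-- The property of the jobs rejected by rule C and accepted in the other assignment, with total
penalty `x` and total running time `V`; `q = 1 / c`. -/
def Good (m : ℕ) (q T : ℝ) (g : ℕ → ℝ) (N : ℕ) (c x V : ℝ) : Prop :=
  0 ≤ x ∧ 0 ≤ V ∧ ∀ i ≤ N, m * (c * (q ^ i * x)) - V ≤ m * (g i * T)

theorem good_zero {q T : ℝ} {g : ℕ → ℝ} {N : ℕ} (hg : ∀ i ≤ N, 0 ≤ g i) (c : ℝ) (hT : 0 ≤ T) :
    Good m q T g N c 0 0 := by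
  refine ⟨le_rfl, le_rfl, fun i hi => ?_⟩
  have := mul_nonneg (hg i hi) hT
  have h2 : (0 : ℝ) ≤ m * (g i * T) := mul_nonneg (Nat.cast_nonneg _) this
  simpa using h2

theorem good_step {q T c x V X t p : ℝ} {g : ℕ → ℝ} {N : ℕ} (hc : 1 < c) (hcq : c * q = 1)
    (hN : m * q ^ N ≤ 1) (hlt : ∀ i < N, 1 ≤ m * q ^ i)
    (hg : ∀ i < N, m * q ^ i - 1 + m * g (i + 1) = m * g i)
    (h : Good m q T g N c x V) (hx : x ≤ X) (hp : 0 < p) (ht0 : 0 < t)
    (htT : t ≤ T) (hr : (c - 1) * X + c * p < t) : Good m q T g N c (x + p) (V + t) := by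
  obtain ⟨h1, h2, h3⟩ := h
  have hc0 : 0 < c - 1 := by linarith
  have hq0 : 0 < q := by
    by_contra hq
    push Not at hq
    nlinarith
  have hq1 : q ≤ 1 := by nlinarith
  have hm0 : (0 : ℝ) ≤ m := Nat.cast_nonneg _
  refine ⟨by linarith, by linarith, fun i hi => ?_⟩
  have hcX : (c - 1) * x ≤ (c - 1) * X := mul_le_mul_of_nonneg_left hx hc0.le
  have h4 : c * (x + p) ≤ t + x := by linarith
  have hqi : 0 < q ^ i := pow_pos hq0 i
  have h5 : m * (c * (q ^ i * (x + p))) ≤ m * q ^ i * t + m * (q ^ i * x) := by
    have := mul_le_mul_of_nonneg_left h4 (mul_nonneg hm0 hqi.le)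
    linarith
  have h6 : m * (q ^ i * x) = m * (c * (q ^ (i + 1) * x)) := by
    rw [pow_succ]
    linear_combination (-(m * q ^ i * x)) * hcq
  rcases hi.lt_or_eq with hlt' | rfl
  · have h7 := h3 (i + 1) hlt'
    have h8 := hlt i hlt'
    have h9 := hg i hlt'
    have h10 : (m * q ^ i - 1) * t ≤ (m * q ^ i - 1) * T :=
      mul_le_mul_of_nonneg_left htT (by linarith)
    have h11 : m * (g i * T) = (m * q ^ i - 1) * T + m * (g (i + 1) * T) := by
      linear_combination (-T) * h9
    linarith
  · have h7 := h3 i le_rfl
    have h8 : m * (c * (q ^ (i + 1) * x)) ≤ m * (c * (q ^ i * x)) := by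
      have h9 : q ^ (i + 1) ≤ q ^ i := by
        rw [pow_succ]
        nlinarith
      have h10 := mul_le_mul_of_nonneg_right h9 h1
      have h11 := mul_le_mul_of_nonneg_left h10 (by linarith : 0 ≤ c)
      exact mul_le_mul_of_nonneg_left h11 hm0
    have h9 : (m * q ^ i - 1) * t ≤ 0 := mul_nonpos_of_nonpos_of_nonneg (by linarith) ht0.le
    linarith

/-- The invariant relating the run of the algorithm and another assignment `σ` whose loads are at
most `T`. -/
theorem invariant (hm : 0 < m) {c q T : ℝ} {g : ℕ → ℝ} {N : ℕ} (hc : 1 < c) (hcq : c * q = 1)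
    (hN : m * q ^ N ≤ 1) (hlt : ∀ i < N, 1 ≤ m * q ^ i)
    (hg : ∀ i < N, m * q ^ i - 1 + m * g (i + 1) = m * g i) (hg0 : ∀ i ≤ N, 0 ≤ g i)
    (hT : 0 ≤ T) (I : List (ℝ × ℝ))
    (hI : ∀ j ∈ I, 0 < j.1 ∧ 0 < j.2) (σ : List (Option (Fin m))) (hσ : σ.length = I.length)
    (hload : ∀ i, load I σ i ≤ T) :
    (∀ i, load I (run (alg hm c) I) i = (state hm c I).a i) ∧
    ∃ x w V bh bd P : ℝ, 0 ≤ w ∧ 0 ≤ bh ∧ 0 ≤ bd ∧ 0 ≤ P ∧
      (state hm c I).X = x + w ∧
      penalty I (run (alg hm c) I) = x + w + bh + bd ∧
      penalty I σ = w + bd + P ∧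
      (∑ i, (state hm c I).a i) + m * bh + V ≤ (∑ i, load I σ i) + m * (c * P) ∧
      (∀ i, m * (state hm c I).a i + m * bh + V ≤
          (m - 1) * T + (∑ i, load I σ i) + m * (c * P) ∨
        m * (state hm c I).a i + m * bh + V ≤
          (∑ i, load I σ i) + m * ((c - 1) * (x + w)) + m * (c * P)) ∧
      Good m q T g N c x V := by
  have hm0 : (0 : ℝ) < m := by exact_mod_cast hm
  have hm1 : (1 : ℝ) ≤ m := by exact_mod_cast hm
  induction I using List.reverseRecOn generalizing σ with
  | nil =>
    have : σ = [] := List.length_eq_zero_iff.1 hσ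
    subst this
    refine ⟨fun i => by simp [run, load, state_nil], 0, 0, 0, 0, 0, 0, le_rfl, le_rfl, le_rfl,
      le_rfl, by simp [state_nil], by simp [run, penalty], by simp [penalty],
      by simp [state_nil, load], ?_, good_zero hg0 c hT⟩
    intro i
    left
    have : 0 ≤ (m - 1 : ℝ) * T := mul_nonneg (by linarith) hT
    simpa [state_nil, load] using this
  | append_singleton I j ih =>
    obtain ⟨σ', d, rfl⟩ : ∃ σ' d, σ = σ' ++ [d] := by
      have hne : σ ≠ [] := by
        intro h
        rw [h] at hσ
        simp at hσ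
      exact ⟨σ.dropLast, σ.getLast hne, (List.dropLast_append_getLast hne).symm⟩
    have hσ' : σ'.length = I.length := by simpa using hσ
    have hj := hI j (by simp)
    have hI' : ∀ j ∈ I, 0 < j.1 ∧ 0 < j.2 := fun k hk => hI k (by simp [hk])
    have hls : ∀ i, load (I ++ [j]) (σ' ++ [d]) i = load I σ' i + if d = some i then j.1 else 0 :=
      fun i => load_snoc hσ' j d i
    have hload' : ∀ i, load I σ' i ≤ T := by
      intro i
      have h1 := hload i
      rw [hls] at h1
      have : (0 : ℝ) ≤ if d = some i then j.1 else 0 := by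
        split_ifs
        · exact hj.1.le
        · exact le_rfl
      linarith
    obtain ⟨hrun, x, w, V, bh, bd, P, hw, hbh, hbd, hP, hX, hpen, hpenσ, hvol, hmach, hgood⟩ :=
      ih hI' σ' hσ' hload'
    have hrl : (run (alg hm c) I).length = I.length := length_run _ _
    have hra : ∀ i, load (I ++ [j]) (run (alg hm c) (I ++ [j])) i =
        load I (run (alg hm c) I) i +
          if dec hm c (state hm c I) j = some i then j.1 else 0 := by
      intro i
      rw [run_snoc, alg_snoc, load_snoc hrl]
    have hrp : penalty (I ++ [j]) (run (alg hm c) (I ++ [j])) =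
        penalty I (run (alg hm c) I) + if dec hm c (state hm c I) j = none then j.2 else 0 := by
      rw [run_snoc, alg_snoc, penalty_snoc hrl]
    have hpσ : penalty (I ++ [j]) (σ' ++ [d]) = penalty I σ' + if d = none then j.2 else 0 :=
      penalty_snoc hσ' j d
    have hsum : (∑ i, load (I ++ [j]) (σ' ++ [d]) i) =
        (∑ i, load I σ' i) + if d = none then 0 else j.1 := by
      simp only [hls, Finset.sum_add_distrib]
      congr 1
      cases d with
      | none => simp
      | some k => simp
    have htT : d ≠ none → j.1 ≤ T := by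
      intro hd
      obtain ⟨i, hi⟩ := Option.ne_none_iff_exists'.1 hd
      have h1 := hload i
      rw [hls, if_pos hi] at h1
      have := load_nonneg hI' σ' i
      linarith
    have hc0 : 0 < c - 1 := by linarith
    have hx := hgood.1
    have hV := hgood.2.1
    rw [state_snoc, hrp, hpσ, hsum]
    simp only [hra]
    unfold dec nxt
    by_cases hB : m * j.2 ≤ j.1
    · -- rule B
      simp only [if_pos hB]
      refine ⟨fun i => by rw [hrun]; simp, ?_⟩
      by_cases hd : d = none
      · refine ⟨x, w, V, bh, bd + j.2, P, hw, hbh, by linarith [hj.2], hP, hX,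
          by simp only [if_true]; linarith, by rw [if_pos hd]; linarith,
          by rw [if_pos hd]; linarith, ?_, hgood⟩
        intro i
        rw [if_pos hd]
        rcases hmach i with h | h
        · left; linarith
        · right; linarith
      · refine ⟨x, w, V, bh + j.2, bd, P, hw, by linarith [hj.2], hbd, hP, hX,
          by simp only [if_true]; linarith, by rw [if_neg hd]; linarith,
          by rw [if_neg hd]; linarith, ?_, hgood⟩
        intro i
        rw [if_neg hd]
        rcases hmach i with h | h
        · left; linarith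
        · right; linarith
    · simp only [if_neg hB]
      push Not at hB
      by_cases hC : (c - 1) * (state hm c I).X + c * j.2 < j.1
      · -- rule C
        simp only [if_pos hC]
        refine ⟨fun i => by rw [hrun]; simp, ?_⟩
        by_cases hd : d = none
        · refine ⟨x, w + j.2, V, bh, bd, P, by linarith [hj.2], hbh, hbd, hP, by linarith,
            by simp only [if_true]; linarith, by rw [if_pos hd]; linarith,
            by rw [if_pos hd]; linarith, ?_, hgood⟩
          intro i
          rw [if_pos hd]
          rcases hmach i with h | h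
          · left; linarith
          · right
            have : 0 ≤ m * ((c - 1) * j.2) := by
              have := hj.2
              positivity
            linarith
        · refine ⟨x + j.2, w, V + j.1, bh, bd, P, hw, hbh, hbd, hP, by linarith,
            by simp only [if_true]; linarith, by rw [if_neg hd]; linarith,
            by rw [if_neg hd]; linarith, ?_, ?_⟩
          · intro i
            rw [if_neg hd]
            rcases hmach i with h | h
            · left; linarith
            · right
              have : 0 ≤ m * ((c - 1) * j.2) := by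
                have := hj.2
                positivity
              linarith
          · exact good_step hc hcq hN hlt hg hgood (by rw [hX]; linarith) hj.2 hj.1 (htT hd) hC
      · -- accepted
        simp only [if_neg hC]
        push Not at hC
        refine ⟨fun i => by rw [hrun]; simp [Option.some.injEq], ?_⟩
        have hsa : (∑ i, ((state hm c I).a i + if amin hm (state hm c I).a = i then j.1 else 0)) =
            (∑ i, (state hm c I).a i) + j.1 := by
          rw [Finset.sum_add_distrib]
          simp
        have hmin : m * (state hm c I).a (amin hm (state hm c I).a) ≤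
            ∑ i, (state hm c I).a i := by
          have := Finset.card_nsmul_le_sum (Finset.univ : Finset (Fin m))
            (fun i => (state hm c I).a i) ((state hm c I).a (amin hm (state hm c I).a))
            (fun i _ => amin_le hm _ i)
          rw [Finset.card_univ, Fintype.card_fin, nsmul_eq_mul] at this
          exact this
        have hcp : m * j.2 ≤ m * (c * j.2) := by
          have := hj.2
          exact mul_le_mul_of_nonneg_left (by nlinarith) hm0.le
        by_cases hd : d = none
        · refine ⟨x, w, V, bh, bd, P + j.2, hw, hbh, hbd, by linarith [hj.2], hX,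
            by simp; linarith, by rw [if_pos hd]; linarith,
            by rw [if_pos hd, hsa]; linarith, ?_, hgood⟩
          intro i
          rw [if_pos hd]
          by_cases hi : amin hm (state hm c I).a = i
          · right
            rw [if_pos hi]
            rw [hi] at hmin
            have hC2 := mul_le_mul_of_nonneg_left hC hm0.le
            rw [hX] at hC2
            linarith
          · rw [if_neg hi]
            have : 0 ≤ m * (c * j.2) := by
              have := hj.2
              positivity
            rcases hmach i with h | h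
            · left; linarith
            · right; linarith
        · refine ⟨x, w, V, bh, bd, P, hw, hbh, hbd, hP, hX,
            by simp; linarith, by rw [if_neg hd]; linarith,
            by rw [if_neg hd, hsa]; linarith, ?_, hgood⟩
          intro i
          rw [if_neg hd]
          by_cases hi : amin hm (state hm c I).a = i
          · left
            rw [if_pos hi]
            rw [hi] at hmin
            have h7 := mul_le_mul_of_nonneg_left (htT hd) (by linarith : (0 : ℝ) ≤ m - 1)
            linarith
          · rw [if_neg hi]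
            have := hj.1
            rcases hmach i with h | h
            · left; linarith
            · right; linarith

/-- The criterion. -/
theorem competitive_of (hm : 2 ≤ m) {c : ℝ} (hc : 1 < c)
    (h : ∀ K : ℕ, ∑ k ∈ Finset.range K, (1 / c) ^ k ≤ c - 1 + K / m) :
    Competitive m (alg (by omega) c) c := by
  have hm' : 0 < m := by omega
  have hm0 : (0 : ℝ) < m := by exact_mod_cast hm'
  have hm2 : (2 : ℝ) ≤ m := by exact_mod_cast hm
  have : Nonempty (Fin m) := ⟨⟨0, hm'⟩⟩
  have hc00 : 0 < c := by linarith
  have hc0 : 0 < c - 1 := by linarith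
  set q : ℝ := 1 / c with hq
  have hcq : c * q = 1 := by rw [hq]; field_simp
  have hq0 : 0 < q := by rw [hq]; positivity
  have hq1 : q < 1 := by rw [hq, div_lt_one hc00]; exact hc
  -- the number of terms
  have hex : ∃ N : ℕ, m * q ^ N ≤ 1 := by
    obtain ⟨N, hN⟩ := exists_pow_lt_of_lt_one (show (0 : ℝ) < 1 / m by positivity) hq1
    refine ⟨N, ?_⟩
    have := mul_le_mul_of_nonneg_left hN.le hm0.le
    rwa [mul_one_div_cancel hm0.ne'] at this
  classical
  obtain ⟨N, hN, hmin⟩ : ∃ N : ℕ, m * q ^ N ≤ 1 ∧ ∀ i < N, ¬ m * q ^ i ≤ 1 :=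
    ⟨Nat.find hex, Nat.find_spec hex, fun i hi => Nat.find_min hex hi⟩
  have hN0 : N ≠ 0 := by
    rintro rfl
    rw [pow_zero, mul_one] at hN
    linarith
  have hlt : ∀ i < N, 1 ≤ m * q ^ i := fun i hi => (not_le.1 (hmin i hi)).le
  set g : ℕ → ℝ := fun i => ∑ k ∈ Finset.Ico i N, (q ^ k - 1 / m) with hgdef
  have hgnn : ∀ i ≤ N, 0 ≤ g i := by
    intro i _
    apply Finset.sum_nonneg
    intro k hk
    rw [Finset.mem_Ico] at hk
    have := hlt k hk.2
    rw [sub_nonneg, div_le_iff₀' hm0]
    exact this
  have hgs : ∀ i < N, m * q ^ i - 1 + m * g (i + 1) = m * g i := by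
    intro i hi
    simp only [hgdef]
    rw [Finset.sum_eq_sum_Ico_succ_bot hi]
    have : (m : ℝ) * (1 / m) = 1 := mul_one_div_cancel hm0.ne'
    linear_combination this
  have hg0 : g 0 ≤ c - 1 := by
    have h1 := h N
    simp only [hgdef]
    rw [Nat.Ico_zero_eq_range, Finset.sum_sub_distrib, Finset.sum_const, Finset.card_range,
      nsmul_eq_mul]
    have : (N : ℝ) * (1 / m) = N / m := by ring
    linarith
  have hg1 : m * g 1 ≤ m * (c - 2) + 1 := by
    have h1 := hgs 0 (Nat.pos_of_ne_zero hN0)
    rw [pow_zero, mul_one, zero_add] at h1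
    have h2 := mul_le_mul_of_nonneg_left hg0 hm0.le
    linarith
  intro I hI
  -- compare with an assignment
  have key : ∀ σ : List (Option (Fin m)), σ.length = I.length →
      cost I (run (alg hm' c) I) ≤ c * cost I σ := by
    intro σ hσ
    set T : ℝ := ⨆ i : Fin m, load I σ i with hTdef
    have hload : ∀ i, load I σ i ≤ T := fun i => le_ciSup (bddAbove_load I σ) i
    have hT : 0 ≤ T := Real.iSup_nonneg (fun i => load_nonneg hI σ i)
    obtain ⟨hrun, x, w, V, bh, bd, P, hw, hbh, hbd, hP, hX, hpen, hpenσ, hvol, hmach, hgood⟩ :=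
      invariant hm' hc hcq hN hlt hgs hgnn hT I hI σ hσ hload
    have hsumT : (∑ i, load I σ i) ≤ m * T := by
      have : ∑ i : Fin m, load I σ i ≤ ∑ _i : Fin m, T :=
        Finset.sum_le_sum (fun i _ => hload i)
      rw [Finset.sum_const, Finset.card_univ, Fintype.card_fin, nsmul_eq_mul] at this
      exact this
    obtain ⟨hx, hV, hgK⟩ := hgood
    have k0 := hgK 0 (Nat.zero_le _)
    have k1 := hgK 1 (Nat.pos_of_ne_zero hN0)
    rw [pow_zero, one_mul] at k0
    have e1 : (m : ℝ) * (c * (q ^ 1 * x)) = m * x := by
      rw [pow_one]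
      linear_combination (m * x) * hcq
    rw [e1] at k1
    have k0' : m * (g 0 * T) ≤ m * ((c - 1) * T) :=
      mul_le_mul_of_nonneg_left (mul_le_mul_of_nonneg_right hg0 hT) hm0.le
    have k1' : m * (g 1 * T) ≤ m * ((c - 2) * T) + T := by
      have := mul_le_mul_of_nonneg_right hg1 hT
      linarith
    have hcost : cost I σ = T + (w + bd + P) := by
      unfold cost
      rw [hpenσ]
    have hbound : ∀ i, load I (run (alg hm' c) I) i ≤ c * (T + (w + bd + P)) -
        (x + w + bh + bd) := by
      intro i
      rw [hrun]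
      have hbdc : bd ≤ c * bd := by nlinarith
      have hwc : w ≤ c * w := by nlinarith
      have h1 : m * ((state hm' c I).a i) ≤
          m * (c * (T + (w + bd + P)) - (x + w + bh + bd)) := by
        have e2 := mul_le_mul_of_nonneg_left hbdc hm0.le
        have e3 := mul_le_mul_of_nonneg_left hwc hm0.le
        rcases hmach i with h | h
        · linarith
        · linarith
      exact le_of_mul_le_mul_left h1 hm0
    rw [hcost]
    unfold cost
    rw [hpen]
    have := ciSup_le hbound
    linarith
  unfold opt
  rw [← div_le_iff₀' hc00]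
  apply le_csInf
  · exact ⟨_, List.replicate I.length none, by simp, rfl⟩
  · rintro y ⟨σ, hσ, rfl⟩
    rw [div_le_iff₀' hc00]
    exact key σ hσ

/-- The upper bound from the criterion. -/
theorem R_le_of (hm : 2 ≤ m) {c : ℝ} (hc : 1 < c)
    (h : ∀ K : ℕ, ∑ k ∈ Finset.range K, (1 / c) ^ k ≤ c - 1 + K / m) : R m ≤ c :=
  csInf_le (R_bddBelow m) ⟨alg (by omega) c, competitive_of hm hc h⟩

end Pool.Agent.H67S
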